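import Pool.Agent.H83.V.FV

/-!
Theorem V, row SUP: the squarefree numbers in terms of the residue data
-/

set_option autoImplicit false

open MeasureTheory ProbabilityTheory Filter Topology Finset
open scoped Nat ENNReal

namespace Pool.Agent.H5.V

open Pool.Agent.H28.LF Pool.Agent.H83.V

/-- the residue of the square of a prime vanishes iff the number is divisible by it -/
theorem rsq_zero (w : ℕ) (ω : Yi) (d : Fin (w + 1)) (hd : (d : ℕ).Prime)
    (h : ∃ i : ℕ, i < (d : ℕ) ^ 2 ∧ shY^[i] ω ∈ flY ((d : ℕ) ^ 2)) :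
    ((rsq w ω d : ℕ) = 0 ↔ ω ∈ flY ((d : ℕ) ^ 2)) := by
  classical
  have hh : (d : ℕ).Prime ∧ ∃ i : ℕ, i < (d : ℕ) ^ 2 ∧ shY^[i] ω ∈ flY ((d : ℕ) ^ 2) := ⟨hd, h⟩
  have e : (rsq w ω d : ℕ) = Nat.find hh.2 := by
    unfold rsq
    rw [dif_pos hh]
  rw [e, Nat.find_eq_zero]
  constructor
  · intro h1
    exact h1.2
  · intro h1
    exact ⟨by have := hd.pos; positivity, h1⟩

theorem sum_sq (w : ℕ) (hw : 0 < w) (N : ℕ) :
    ∑ k ∈ range N, 1 / (((w + 1 + k : ℕ) ^ 2 : ℕ) : ℝ) ≤ 1 / w - 1 / (w + N) := by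
  have hwr : (0 : ℝ) < w := by exact_mod_cast hw
  induction N with
  | zero => simp
  | succ N ih =>
    rw [Finset.sum_range_succ]
    have hN : (0 : ℝ) ≤ N := Nat.cast_nonneg N
    have h1 : 1 / (((w + 1 + N : ℕ) ^ 2 : ℕ) : ℝ) ≤ 1 / (w + N) - 1 / (w + (N + 1 : ℕ)) := by
      push_cast
      have h2 : (1 : ℝ) / (w + N) - 1 / (w + (N + 1)) = 1 / ((w + N) * (w + (N + 1))) := by
        field_simp
        ring
      rw [h2]
      apply one_div_le_one_div_of_le
      · positivity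
      · nlinarith
    linarith

theorem pf_SUP (hD : T_DVS) : T_SUP := by
  intro w ν hw hν
  have := hν.prob
  have hwr : (0 : ℝ) < w := by exact_mod_cast hw
  have hper : ∀ᵐ ω ∂ν, ∀ d : ℕ, 0 < d → ∃ i : ℕ, i < d ∧ shY^[i] ω ∈ flY d := by
    rw [ae_all_iff]
    intro d
    by_cases hd : 0 < d
    · filter_upwards [hν.per d hd] with ω h
      intro _
      obtain ⟨i, hi, _⟩ := h.2
      exact ⟨i, hi⟩
    · exact Filter.Eventually.of_forall fun ω h => absurd h hd
  have hsub : {ω | ¬ ((btY ω).2 = true ↔ Sup (rsq w ω))} ≤ᵐ[ν]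
      ⋃ k : ℕ, flY ((w + 1 + k) ^ 2) := by
    filter_upwards [hper, hν.sqf] with ω h1 h2
    intro h3
    by_contra h4
    refine h3 ?_
    have h5 : ∀ p : ℕ, p.Prime → ω ∈ flY (p ^ 2) → p ≤ w := by
      intro p hp hpw
      by_contra h6
      refine h4 (Set.mem_iUnion.2 ⟨p - (w + 1), ?_⟩)
      rw [show w + 1 + (p - (w + 1)) = p by omega]
      exact hpw
    have h6 : Sup (rsq w ω) ↔ ∀ p : ℕ, p.Prime → ω ∉ flY (p ^ 2) := by
      constructor
      · intro hS p hp hpw
        have hple := h5 p hp hpw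
        exact hS ⟨p, by omega⟩ hp
          ((rsq_zero w ω ⟨p, by omega⟩ hp (h1 _ (by have := hp.pos; positivity))).2 hpw)
      · intro hS d hd hd0
        exact hS d hd ((rsq_zero w ω d hd (h1 _ (by have := hd.pos; positivity))).1 hd0)
    rw [h6]
    constructor
    · intro hb p hp hpw
      have h7 := h2.2 ⟨p, hp, hpw⟩
      rw [hb] at h7
      exact Bool.noConfusion h7
    · intro hS
      by_contra hb
      have hb' : (btY ω).2 = false := by simpa using hb
      obtain ⟨p, hp, hpw⟩ := h2.1 hb'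
      exact hS p hp hpw
  have hfl : ∀ k : ℕ, ν (flY ((w + 1 + k) ^ 2)) = ENNReal.ofReal (1 / (((w + 1 + k : ℕ) ^ 2 : ℕ) : ℝ))
      := by
    intro k
    rw [← (hD ν hν).1 ((w + 1 + k) ^ 2) (by positivity)]
    exact (ENNReal.ofReal_toReal (measure_ne_top ν _)).symm
  have hle : ν {ω | ¬ ((btY ω).2 = true ↔ Sup (rsq w ω))} ≤ ENNReal.ofReal (1 / w) := by
    refine (measure_mono_ae hsub).trans ((measure_iUnion_le _).trans ?_)
    refine ENNReal.tsum_le_of_sum_range_le fun N => ?_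
    rw [Finset.sum_congr rfl fun k _ => hfl k, ← ENNReal.ofReal_sum_of_nonneg]
    · refine ENNReal.ofReal_le_ofReal ((sum_sq w hw N).trans ?_)
      have : (0 : ℝ) ≤ 1 / (w + N) := by positivity
      linarith
    · intro k _
      positivity
  exact ENNReal.toReal_le_of_le_ofReal (by positivity) hle

end Pool.Agent.H5.V
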