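import Pool.Agent.H83.V.T3

/-!
Theorem V, row W8: the switching lemma for the references (as `pf_D8` of helper19)
-/

set_option autoImplicit false

open MeasureTheory ProbabilityTheory Filter Topology Finset
open scoped Nat ENNReal

namespace Pool.Agent.H5.V

open Pool.Agent.H67.AG Pool.Agent.H28.LF Pool.Agent.H83.V

theorem sel_meas (c : Vx) (Λ n : ℕ) : Measurable (c.sel Λ n) := by
  classical
  have h1 : Measurable (c.wd Λ) := by
    refine measurable_pi_lambda _ fun l => ?_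
    exact c.am.comp (c.T.measurable.iterate _)
  have h2 : Measurable fun p : XX c.X (n + 1) =>
      ((fun b => c.wd Λ (p.2.1 b), c.wd Λ p.2.2) :
        (Fin (n + 1) → Fin Λ → Fin c.q) × (Fin Λ → Fin c.q)) := by
    refine Measurable.prodMk (measurable_pi_lambda _ fun b => ?_) ?_
    · exact h1.comp ((measurable_pi_apply b).comp (measurable_fst.comp measurable_snd))
    · exact h1.comp (measurable_snd.comp measurable_snd)
  obtain ⟨F, hF⟩ : ∃ F : (Fin (n + 1) → Fin Λ → Fin c.q) × (Fin Λ → Fin c.q) → Fin (n + 1),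
      ∀ p : XX c.X (n + 1), c.sel Λ n p = F (fun b => c.wd Λ (p.2.1 b), c.wd Λ p.2.2) := by
    refine ⟨fun w => if h : (univ.filter fun b => ∃ b₁, c.hd (w.1 b) (w.1 b₁) ≤ c.uh / 2 ∧
        c.hd (w.1 b₁) w.2 ≤ 2 * c.ulo).Nonempty then
      (univ.filter fun b => ∃ b₁, c.hd (w.1 b) (w.1 b₁) ≤ c.uh / 2 ∧
        c.hd (w.1 b₁) w.2 ≤ 2 * c.ulo).min' h else 0, fun p => ?_⟩
    rfl
  have h3 : c.sel Λ n = fun p => F (fun b => c.wd Λ (p.2.1 b), c.wd Λ p.2.2) := funext hF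
  rw [h3]
  exact (measurable_of_countable F).comp h2

/-- the reference system over `Z` -/
noncomputable def dS (hPNL : Pool.Agent.H40.AG.T_PNL) (hPNT : Pool.Agent.H40.AG.T_PNT)
    (c : Vx) (Z : SA c.X) (n : ℕ) (hZ : InvZ c.T Z) : Sv where
  q := c.q
  n := n + 1
  m := c.m
  m0 := c.m0
  I := c.I
  hI := c.hI
  U := c.U
  hU := c.hU
  s := c.s
  sv := c.sv
  γ := c.γ
  γ0 := c.γ0
  hγ := c.hγ
  Bad := c.Bad
  code := c.code
  Ω' := XN c.X (n + 1)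
  P' := PN c.μ Z (n + 1)
  pP' := (hPNL c.X c.μ Z (n + 1)).1
  T' := TN c.T (n + 1)
  mp' := hPNT c.X c.μ c.T Z (n + 1) c.erg.toMeasurePreserving hZ
  y := fun b q => c.a (q.2 b)
  ym := fun b => c.am.comp ((measurable_pi_apply b).comp measurable_snd)

/-- the extension with the last point -/
noncomputable def eS (hPNL : Pool.Agent.H40.AG.T_PNL) (hPNT : Pool.Agent.H40.AG.T_PNT)
    (c : Vx) (Z : SA c.X) (n : ℕ) (hZ : InvZ c.T Z) (Λ : ℕ) (R : Measure (c.X × c.X))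
    (hP : IsProbabilityMeasure (PX c.μ Z (n + 1) R))
    (hT : MeasurePreserving (TX c.T (n + 1)) (PX c.μ Z (n + 1) R) (PX c.μ Z (n + 1) R))
    (hg : MeasurePreserving (prX c.X (n + 1)) (PX c.μ Z (n + 1) R) (PN c.μ Z (n + 1))) :
    SvE (dS hPNL hPNT c Z n hZ) where
  Ω := XX c.X (n + 1)
  P := PX c.μ Z (n + 1) R
  pP := hP
  T := TX c.T (n + 1)
  mp := hT
  g := prX c.X (n + 1)
  fac := ⟨hg, fun _ => rfl⟩
  s := c.sel Λ n
  sm := sel_meas c Λ n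

theorem pf_W8 (hX : T_YSW) (hPNL : Pool.Agent.H40.AG.T_PNL)
    (hPNT : Pool.Agent.H40.AG.T_PNT) (hPXL : Pool.Agent.H40.AG.T_PXL)
    (hPXT : Pool.Agent.H40.AG.T_PXT) : T_W8 := by
  intro c ε hε
  obtain ⟨η, hη, h1⟩ := hX c.m c.γ ε c.m0 c.γ0 hε
  refine ⟨η, hη, fun Z n hZ => ?_⟩
  obtain ⟨L₁, h2⟩ := h1 (dS hPNL hPNT c Z n hZ) rfl rfl
  refine ⟨L₁, fun Λ R _ hR1 hR2 hRT hsl => ?_⟩
  have hL := hPXL c.X c.μ Z (n + 1) R hR1 hR2
  have hT := hPXT c.X c.μ c.T Z (n + 1) R c.erg.toMeasurePreserving hZ hR1 hR2 hRT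
  exact h2 (eS hPNL hPNT c Z n hZ Λ R hL.1 hT hL.2.2.1) hsl

end Pool.Agent.H5.V
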